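import Pool.Agent.Helper51.Pell.Unit

set_option autoImplicit false

namespace Pool.Agent.Helper51.Pell

theorem fundamental_of (d μ N : ℕ) (hμ : 0 < μ) (hN : 8 * μ ^ 2 < N)
    (hd : μ ^ 2 * d + 1 = N ^ 2) :
    IsFundamental d (if d % 4 = 1 then 2 * N else N) (if d % 4 = 1 then 2 * μ else μ) := by
  have hd0 : 0 < d := by
    rcases Nat.eq_zero_or_pos d with h | h
    · subst h
      simp only [mul_zero, zero_add] at hd
      nlinarith
    · exact h
  have hs : (0 : ℝ) < √(d : ℝ) := Real.sqrt_pos.2 (by exact_mod_cast hd0)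
  have hdZ : (μ : ℤ) ^ 2 * d = (N : ℤ) ^ 2 - 1 := by
    have : ((μ ^ 2 * d + 1 : ℕ) : ℤ) = ((N ^ 2 : ℕ) : ℤ) := by rw [hd]
    push_cast at this
    linarith
  have hNZ : 8 * (μ : ℤ) ^ 2 < N := by exact_mod_cast hN
  have hμZ : (0 : ℤ) < μ := by exact_mod_cast hμ
  have hN1 : (1 : ℝ) < N := by
    have : 1 < N := by nlinarith
    exact_mod_cast this
  have hμR : (0 : ℝ) < μ := by exact_mod_cast hμ
  have hval : (1 : ℝ) < N + μ * √(d : ℝ) := by
    have := mul_pos hμR hs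
    linarith
  by_cases h4 : d % 4 = 1
  · rw [if_pos h4, if_pos h4]
    refine ⟨?_, ?_, ?_⟩
    · rw [IsUnitPair, if_pos h4]
      left
      linear_combination (-4 : ℤ) * hdZ
    · rw [unitVal, if_pos h4]
      push_cast
      have : (2 * (N : ℝ) + 2 * μ * √(d : ℝ)) / 2 = N + μ * √(d : ℝ) := by ring
      rw [this]; exact hval
    · intro t' u' hp h1
      rw [IsUnitPair, if_pos h4] at hp
      rw [unitVal, if_pos h4] at h1
      have h1' : ((2 : ℤ) : ℝ) < t' + u' * √(d : ℝ) := by push_cast; linarith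
      have hp' : t' ^ 2 - (d : ℤ) * u' ^ 2 = 2 ^ 2 ∨ t' ^ 2 - (d : ℤ) * u' ^ 2 = -2 ^ 2 := by
        norm_num; exact hp
      obtain ⟨ht, hu⟩ := pos_of_gt d hd0 2 (by norm_num) t' u' hp' h1'
      obtain ⟨h2, h3⟩ := minimal d 2 μ N (Or.inr rfl) hμZ hNZ hdZ t' u' ht hu hp'
      rw [unitVal, unitVal, if_pos h4, if_pos h4]
      have h2' : ((2 * (μ : ℤ) : ℤ) : ℝ) ≤ u' := by exact_mod_cast h2
      have h3' : ((2 * (N : ℤ) : ℤ) : ℝ) ≤ t' := by exact_mod_cast h3
      have := mul_le_mul_of_nonneg_right h2' hs.le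
      linarith
  · rw [if_neg h4, if_neg h4]
    refine ⟨?_, ?_, ?_⟩
    · rw [IsUnitPair, if_neg h4]
      left
      linear_combination (-1 : ℤ) * hdZ
    · rw [unitVal, if_neg h4]
      push_cast
      exact hval
    · intro t' u' hp h1
      rw [IsUnitPair, if_neg h4] at hp
      rw [unitVal, if_neg h4] at h1
      have h1' : ((1 : ℤ) : ℝ) < t' + u' * √(d : ℝ) := by push_cast; linarith
      have hp' : t' ^ 2 - (d : ℤ) * u' ^ 2 = 1 ^ 2 ∨ t' ^ 2 - (d : ℤ) * u' ^ 2 = -1 ^ 2 := by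
        norm_num; exact hp
      obtain ⟨ht, hu⟩ := pos_of_gt d hd0 1 (by norm_num) t' u' hp' h1'
      obtain ⟨h2, h3⟩ := minimal d 1 μ N (Or.inl rfl) hμZ hNZ hdZ t' u' ht hu hp'
      rw [unitVal, unitVal, if_neg h4, if_neg h4]
      rw [one_mul] at h2 h3
      have h2' : ((μ : ℤ) : ℝ) ≤ u' := by exact_mod_cast h2
      have h3' : ((N : ℤ) : ℝ) ≤ t' := by exact_mod_cast h3
      have := mul_le_mul_of_nonneg_right h2' hs.le
      linarith

theorem squarefree_three {a b c : ℕ} (ha : Squarefree a) (hb : Squarefree b) (hc : Squarefree c)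
    (hab : Nat.Coprime a b) (hac : Nat.Coprime a c) (hbc : Nat.Coprime b c) :
    Squarefree (a * b * c) := by
  rw [Nat.squarefree_mul (Nat.Coprime.mul_left hac hbc), Nat.squarefree_mul hab]
  exact ⟨⟨ha, hb⟩, hc⟩

/-- assembling the unit -/
theorem assemble (m κ B n K N : ℕ) (hm : Squarefree m) (hn : Squarefree n) (hK : Squarefree K)
    (hnodd : n % 2 = 1) (hnB : B < n) (hn8 : 8 < n) (c1 : Nat.Coprime m n) (c2 : Nat.Coprime m K)
    (c3 : Nat.Coprime n K) (hN : 8 * (m ^ κ) ^ 2 < N)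
    (h : (m ^ κ) ^ 2 * (m * n * K) + 1 = N ^ 2) :
    ∃ d : ℕ, B < d ∧ Squarefree d ∧ (∃ p : ℕ, p.Prime ∧ p % 2 = 1 ∧ p ∣ d) ∧ m ∣ d ∧
      ∃ t u : ℤ, IsFundamental d t u ∧ ((m : ℤ) ^ κ) ∣ u := by
  have hm0 : 0 < m := Nat.pos_of_ne_zero hm.ne_zero
  have hK0 : 0 < K := Nat.pos_of_ne_zero hK.ne_zero
  refine ⟨m * n * K, ?_, squarefree_three hm hn hK c1 c2 c3, ?_, ?_, ?_⟩
  · have h1 : n ≤ m * n * K := by
      calc n = 1 * n * 1 := by ring
        _ ≤ m * n * K := Nat.mul_le_mul (Nat.mul_le_mul_right _ hm0) hK0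
    omega
  · refine ⟨n.minFac, Nat.minFac_prime (by omega), ?_, ?_⟩
    · rcases (Nat.minFac_prime (by omega : n ≠ 1)).eq_two_or_odd with h2 | h2
      · exfalso
        have := Nat.minFac_dvd n
        rw [h2] at this
        omega
      · exact h2
    · exact (Nat.minFac_dvd n).trans ((dvd_mul_left n m).mul_right K)
  · exact (dvd_mul_right m n).mul_right K
  · have hf := fundamental_of (m * n * K) (m ^ κ) N (pow_pos hm0 κ) hN h
    refine ⟨_, _, hf, ?_⟩
    split_ifs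
    · push_cast
      exact dvd_mul_left _ _
    · push_cast
      exact dvd_refl _

/-- odd case -/
theorem odd_case (m κ B : ℕ) (hm : Squarefree m) (hodd : m % 2 = 1) :
    ∃ d : ℕ, B < d ∧ Squarefree d ∧ (∃ p : ℕ, p.Prime ∧ p % 2 = 1 ∧ p ∣ d) ∧ m ∣ d ∧
      ∃ t u : ℤ, IsFundamental d t u ∧ ((m : ℤ) ^ κ) ∣ u := by
  have hm0 : 0 < m := by omega
  set M := m ^ (2 * κ + 1) with hM
  have hM0 : 0 < M := pow_pos hm0 _
  have hMo : M % 2 = 1 := by
    rw [hM, Nat.pow_mod, hodd]; simp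
  have hmM : m ∣ M := dvd_pow_self m (by omega)
  have c2m : Nat.Coprime m 2 := by
    rw [Nat.coprime_comm, Nat.prime_two.coprime_iff_not_dvd]; omega
  have hcMm : Nat.Coprime (M + 2) m := by
    obtain ⟨q, hq⟩ := hmM
    rw [hq, Nat.coprime_comm, Nat.coprime_mul_left_add_right]
    exact c2m
  have hcM : Nat.Coprime (M + 2) M := by
    rw [hM]
    exact Nat.Coprime.pow_right _ (hM ▸ hcMm)
  have hc2 : Nat.Coprime (M + 2) 2 := by
    rw [Nat.coprime_comm, Nat.prime_two.coprime_iff_not_dvd]; omega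
  obtain ⟨j, hj, s1, s2⟩ := exists_both_squarefree 1 (2 * m) (M + 2) (2 * m * M)
    (Nat.coprime_one_left _) (by norm_num) (by omega)
    (Nat.Coprime.mul_right (Nat.Coprime.mul_right hc2 hcMm) hcM) (by omega)
    (by rw [mul_assoc]; omega) (B + 8)
  have hnodd : (1 + 2 * m * j) % 2 = 1 := by rw [mul_assoc]; omega
  have hmj : j ≤ m * j := Nat.le_mul_of_pos_left j hm0
  have hbig : B + 8 < 1 + 2 * m * j := by rw [mul_assoc]; omega
  have hK : M + 2 + 2 * m * M * j = M * (1 + 2 * m * j) + 2 := by ring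
  rw [hK] at s2
  set n := 1 + 2 * m * j with hn
  have cmn : Nat.Coprime m n := by
    rw [hn, show 1 + 2 * m * j = m * (2 * j) + 1 by ring, Nat.coprime_mul_left_add_right]
    exact Nat.coprime_one_right _
  have cmK : Nat.Coprime m (M * n + 2) := by
    obtain ⟨q, hq⟩ := hmM
    rw [hq, mul_assoc, Nat.coprime_mul_left_add_right]
    exact c2m
  have cnK : Nat.Coprime n (M * n + 2) := by
    rw [mul_comm M n, Nat.coprime_mul_left_add_right, Nat.coprime_comm,
      Nat.prime_two.coprime_iff_not_dvd]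
    omega
  refine assemble m κ B n (M * n + 2) (M * n + 1) hm s1 s2 hnodd (by omega) (by omega) cmn cmK cnK
    ?_ ?_
  · have h1 : (m ^ κ) ^ 2 ≤ M := by
      rw [hM, ← pow_mul]
      exact Nat.pow_le_pow_right hm0 (by omega)
    have h2 : 8 * (m ^ κ) ^ 2 ≤ n * M := Nat.mul_le_mul (by omega) h1
    rw [mul_comm M n]
    omega
  · have : (m ^ κ) ^ 2 * m = M := by rw [hM]; ring
    calc (m ^ κ) ^ 2 * (m * n * (M * n + 2)) + 1 = ((m ^ κ) ^ 2 * m) * n * (M * n + 2) + 1 := by ring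
      _ = (M * n + 1) ^ 2 := by rw [this]; ring

/-- even case -/
theorem even_case (m κ B : ℕ) (hm : Squarefree (2 * m)) :
    ∃ d : ℕ, B < d ∧ Squarefree d ∧ (∃ p : ℕ, p.Prime ∧ p % 2 = 1 ∧ p ∣ d) ∧ 2 * m ∣ d ∧
      ∃ t u : ℤ, IsFundamental d t u ∧ (((2 * m : ℕ) : ℤ) ^ κ) ∣ u := by
  have hm0 : 0 < m := by
    rcases Nat.eq_zero_or_pos m with h | h
    · subst h; simp at hm
    · exact h
  set M := (2 * m) ^ (2 * κ + 1) * m ^ 2 with hM
  have hM0 : 0 < M := by positivity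
  have hmM : 2 * m ∣ M := (dvd_pow_self (2 * m) (by omega)).mul_right _
  have h2M : M % 2 = 0 := Nat.mod_eq_zero_of_dvd ((dvd_mul_right 2 m).trans hmM)
  have hcMm : Nat.Coprime (M + 1) (2 * m) := by
    obtain ⟨q, hq⟩ := hmM
    rw [hq, Nat.coprime_comm, Nat.coprime_mul_left_add_right]
    exact Nat.coprime_one_right _
  have hcM : Nat.Coprime (M + 1) M := by
    have h1 : M + 1 = M * 1 + 1 := by ring
    rw [h1, Nat.coprime_comm, Nat.coprime_mul_left_add_right]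
    exact Nat.coprime_one_right _
  obtain ⟨j, hj, s1, s2⟩ := exists_both_squarefree 1 (2 * m) (M + 1) (2 * m * M)
    (Nat.coprime_one_left _) (by norm_num) (by omega)
    (Nat.Coprime.mul_right hcMm hcM) (by omega)
    (by rw [mul_assoc]; omega) (B + 8)
  have hnodd : (1 + 2 * m * j) % 2 = 1 := by rw [mul_assoc]; omega
  have hmj : j ≤ m * j := Nat.le_mul_of_pos_left j hm0
  have hbig : B + 8 < 1 + 2 * m * j := by rw [mul_assoc]; omega
  have hK : M + 1 + 2 * m * M * j = M * (1 + 2 * m * j) + 1 := by ring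
  rw [hK] at s2
  set n := 1 + 2 * m * j with hn
  have cmn : Nat.Coprime (2 * m) n := by
    rw [hn, show 1 + 2 * m * j = (2 * m) * j + 1 by ring, Nat.coprime_mul_left_add_right]
    exact Nat.coprime_one_right _
  have cmK : Nat.Coprime (2 * m) (M * n + 1) := by
    obtain ⟨q, hq⟩ := hmM
    rw [hq, mul_assoc, Nat.coprime_mul_left_add_right]
    exact Nat.coprime_one_right _
  have cnK : Nat.Coprime n (M * n + 1) := by
    rw [mul_comm M n, Nat.coprime_mul_left_add_right]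
    exact Nat.coprime_one_right _
  obtain ⟨d, h1, h2, h3, h4, t, u, h5, h6⟩ := assemble (2 * m) (κ + 1) B n (M * n + 1)
    (2 * M * n + 1) hm s1 s2 hnodd (by omega) (by omega) cmn cmK cnK
    (by
      have h1 : ((2 * m) ^ (κ + 1)) ^ 2 ≤ 2 * M := by
        have : 2 * M = ((2 * m) ^ (κ + 1)) ^ 2 * m := by rw [hM]; ring
        rw [this]
        exact Nat.le_mul_of_pos_right _ hm0
      have h2 : 8 * ((2 * m) ^ (κ + 1)) ^ 2 ≤ n * (2 * M) := Nat.mul_le_mul (by omega) h1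
      rw [mul_comm (2 * M) n]
      omega)
    (by
      have : ((2 * m) ^ (κ + 1)) ^ 2 * (2 * m) = 4 * M := by rw [hM]; ring
      calc ((2 * m) ^ (κ + 1)) ^ 2 * (2 * m * n * (M * n + 1)) + 1
          = (((2 * m) ^ (κ + 1)) ^ 2 * (2 * m)) * n * (M * n + 1) + 1 := by ring
        _ = (2 * M * n + 1) ^ 2 := by rw [this]; ring)
  exact ⟨d, h1, h2, h3, h4, t, u, h5, (pow_dvd_pow _ (by omega)).trans h6⟩

theorem main (m κ B : ℕ) (hm : Squarefree m) :
    ∃ d : ℕ, B < d ∧ Squarefree d ∧ (∃ p : ℕ, p.Prime ∧ p % 2 = 1 ∧ p ∣ d) ∧ m ∣ d ∧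
      ∃ t u : ℤ, IsFundamental d t u ∧ ((m : ℤ) ^ κ) ∣ u := by
  rcases Nat.mod_two_eq_zero_or_one m with h | h
  · obtain ⟨q, rfl⟩ := Nat.dvd_of_mod_eq_zero h
    exact even_case q κ B hm
  · exact odd_case m κ B hm h

end Pool.Agent.Helper51.Pell
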