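import Mathlib

set_option autoImplicit false

namespace Pool.Agent.Helper51.Pell

open Finset

/-- number of `j < J` with `q ∣ a + b j` for `b` coprime to `q` -/
theorem card_dvd_le (a b q J : ℕ) (hq : 0 < q) (hb : Nat.Coprime b q) :
    ((range J).filter (fun j => q ∣ a + b * j)).card ≤ J / q + 1 := by
  -- all such j are congruent mod q
  classical
  rcases Finset.eq_empty_or_nonempty ((range J).filter (fun j => q ∣ a + b * j)) with h | ⟨j0, hj0⟩
  · rw [h]; simp
  · have hsub : (range J).filter (fun j => q ∣ a + b * j) ⊆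
        (range J).filter (fun j => j ≡ j0 [MOD q]) := by
      intro j hj
      rw [mem_filter] at hj hj0 ⊢
      refine ⟨hj.1, ?_⟩
      have h1 : a + b * j ≡ a + b * j0 [MOD q] :=
        ((Nat.modEq_zero_iff_dvd).2 hj.2).trans ((Nat.modEq_zero_iff_dvd).2 hj0.2).symm
      have h2 : b * j ≡ b * j0 [MOD q] := Nat.ModEq.add_left_cancel' a h1
      exact Nat.ModEq.cancel_left_of_coprime (by rw [Nat.gcd_comm]; exact hb) h2
    calc _ ≤ ((range J).filter (fun j => j ≡ j0 [MOD q])).card := card_le_card hsub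
      _ ≤ J / q + 1 := by
        rw [← Nat.count_eq_card_filter_range]
        rw [Nat.count_modEq_card J hq]
        split_ifs <;> omega

/-- telescoping bound for the sum of inverse squares -/
theorem sum_inv_sq (K : ℕ) : ∑ k ∈ Ico 3 K, (1 : ℝ) / (k : ℝ) ^ 2 ≤ 2 / 5 := by
  have key : ∀ k : ℕ, 3 ≤ k → (1 : ℝ) / (k : ℝ) ^ 2 ≤ 2 / (2 * k - 1) - 2 / (2 * k + 1) := by
    intro k hk
    have hk' : (3 : ℝ) ≤ k := by exact_mod_cast hk
    rw [div_sub_div _ _ (by linarith) (by linarith), div_le_div_iff₀ (by positivity)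
      (by nlinarith)]
    nlinarith
  rcases le_or_gt K 3 with h | h
  · rw [Ico_eq_empty (by omega)]; norm_num
  · have : ∑ k ∈ Ico 3 K, (1 : ℝ) / (k : ℝ) ^ 2 ≤ 2 / 5 - 2 / (2 * K - 1) := by
      obtain ⟨n, rfl⟩ := Nat.exists_eq_add_of_le h.le
      clear h
      induction n with
      | zero => simp; norm_num
      | succ n ih =>
        rw [← add_assoc, sum_Ico_succ_top (by omega)]
        have := key (3 + n) (by omega)
        push_cast at this ih ⊢
        have e : (2 * (3 + (n : ℝ)) + 1) = 2 * (3 + (n : ℝ) + 1) - 1 := by ring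
        rw [e] at this
        linarith
    have h2 : (0 : ℝ) ≤ 2 / (2 * K - 1) := by
      have : (3 : ℝ) < K := by exact_mod_cast h
      apply div_nonneg <;> linarith
    linarith

end Pool.Agent.Helper51.Pell
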