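import Pool.Agent.Helper51.Pell.Sieve

set_option autoImplicit false

namespace Pool.Agent.Helper51.Pell

open Finset

theorem card_not_squarefree_le (a b J : ℕ) (hab : Nat.Coprime a b) (ha : a % 2 = 1)
    (hb : b % 2 = 0) :
    (((range J).filter (fun j => ¬ Squarefree (a + b * j))).card : ℝ) ≤
      2 / 5 * J + (Nat.sqrt (a + b * J) : ℝ) := by
  classical
  set K := Nat.sqrt (a + b * J) + 1 with hK
  have hsub : (range J).filter (fun j => ¬ Squarefree (a + b * j)) ⊆
      (Ico 3 K).biUnion (fun k => if Nat.Coprime b (k ^ 2) then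
        (range J).filter (fun j => k ^ 2 ∣ a + b * j) else ∅) := by
    intro j hj
    rw [mem_filter, mem_range] at hj
    obtain ⟨hjJ, hns⟩ := hj
    rw [Nat.squarefree_iff_prime_squarefree] at hns
    push Not at hns
    obtain ⟨p, hp, hpd⟩ := hns
    have hpb : Nat.Coprime b p := by
      rw [Nat.coprime_comm, hp.coprime_iff_not_dvd]
      intro hpb
      have h1 : p ∣ a + b * j := (Dvd.intro p rfl).trans hpd
      have h2 : p ∣ a := (Nat.dvd_add_left (hpb.mul_right j)).1 h1
      have := Nat.dvd_gcd h2 hpb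
      rw [hab] at this
      exact hp.one_lt.ne' (Nat.dvd_one.1 this)
    have hp3 : 3 ≤ p := by
      have h2 := hp.two_le
      rcases h2.eq_or_lt with h | h
      · exfalso
        subst h
        rw [Nat.coprime_comm, Nat.prime_two.coprime_iff_not_dvd] at hpb
        omega
      · exact h
    have hpK : p < K := by
      have h1 : p * p ≤ a + b * j := Nat.le_of_dvd (by omega) hpd
      have h2 : a + b * j ≤ a + b * J := by
        have := Nat.mul_le_mul_left b hjJ.le
        omega
      have h3 : p ≤ Nat.sqrt (a + b * J) := Nat.le_sqrt.2 (h1.trans h2)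
      omega
    rw [mem_biUnion]
    refine ⟨p, mem_Ico.2 ⟨hp3, hpK⟩, ?_⟩
    rw [if_pos (Nat.Coprime.pow_right 2 hpb), mem_filter, mem_range]
    exact ⟨hjJ, by rw [pow_two]; exact hpd⟩
  have h1 : ((range J).filter (fun j => ¬ Squarefree (a + b * j))).card ≤
      ∑ k ∈ Ico 3 K, (J / k ^ 2 + 1) := by
    refine (card_le_card hsub).trans (card_biUnion_le.trans (sum_le_sum ?_))
    intro k hk
    rw [mem_Ico] at hk
    split_ifs with h
    · exact card_dvd_le a b (k ^ 2) J (pow_pos (by omega) 2) h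
    · simp
  have h2 : (((∑ k ∈ Ico 3 K, (J / k ^ 2 + 1) : ℕ)) : ℝ) ≤
      ∑ k ∈ Ico 3 K, ((J : ℝ) * (1 / (k : ℝ) ^ 2) + 1) := by
    push_cast
    refine sum_le_sum fun k hk => ?_
    have : ((J / k ^ 2 : ℕ) : ℝ) ≤ (J : ℝ) / ((k ^ 2 : ℕ) : ℝ) := Nat.cast_div_le
    push_cast at this
    rw [mul_one_div]
    linarith
  have h3 : ∑ k ∈ Ico 3 K, ((J : ℝ) * (1 / (k : ℝ) ^ 2) + 1) ≤ 2 / 5 * J + (Nat.sqrt (a + b * J) : ℝ) := by
    rw [sum_add_distrib, ← mul_sum, sum_const, nsmul_eq_mul, mul_one, Nat.card_Ico]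
    have h4 := sum_inv_sq K
    have h5 : ((K - 3 : ℕ) : ℝ) ≤ (Nat.sqrt (a + b * J) : ℝ) := by
      have : K - 3 ≤ Nat.sqrt (a + b * J) := by omega
      exact_mod_cast this
    have h6 : (J : ℝ) * ∑ k ∈ Ico 3 K, 1 / (k : ℝ) ^ 2 ≤ J * (2 / 5) :=
      mul_le_mul_of_nonneg_left h4 (by positivity)
    linarith
  calc _ ≤ (((∑ k ∈ Ico 3 K, (J / k ^ 2 + 1) : ℕ)) : ℝ) := by exact_mod_cast h1
    _ ≤ _ := h2.trans h3

/-- two linear forms are simultaneously squarefree for arbitrarily large arguments -/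
theorem exists_both_squarefree (a b a' b' : ℕ) (hab : Nat.Coprime a b) (ha : a % 2 = 1)
    (hb : b % 2 = 0) (hab' : Nat.Coprime a' b') (ha' : a' % 2 = 1)
    (hb' : b' % 2 = 0) (J0 : ℕ) :
    ∃ j, J0 ≤ j ∧ Squarefree (a + b * j) ∧ Squarefree (a' + b' * j) := by
  classical
  by_contra hcon
  push Not at hcon
  -- choose J huge
  have key : ∀ J : ℕ, (J : ℝ) ≤ J0 + (2 / 5 * J + (Nat.sqrt (a + b * J) : ℝ)) +
      (2 / 5 * J + (Nat.sqrt (a' + b' * J) : ℝ)) := by
    intro J
    have hsub : range J ⊆ range J0 ∪ (range J).filter (fun j => ¬ Squarefree (a + b * j)) ∪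
        (range J).filter (fun j => ¬ Squarefree (a' + b' * j)) := by
      intro j hj
      rw [mem_union, mem_union, mem_filter, mem_filter, mem_range]
      by_cases h : j < J0
      · exact Or.inl (Or.inl h)
      · by_cases h' : Squarefree (a + b * j)
        · exact Or.inr ⟨hj, hcon j (by omega) h'⟩
        · exact Or.inl (Or.inr ⟨hj, h'⟩)
    have h1 := (card_le_card hsub).trans (card_union_le _ _)
    have h2 := card_union_le (range J0) ((range J).filter (fun j => ¬ Squarefree (a + b * j)))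
    rw [card_range] at h1 h2
    have h3 := card_not_squarefree_le a b J hab ha hb
    have h4 := card_not_squarefree_le a' b' J hab' ha' hb'
    have h5 : (J : ℝ) ≤ (J0 : ℝ) + (((range J).filter (fun j => ¬ Squarefree (a + b * j))).card : ℝ)
        + (((range J).filter (fun j => ¬ Squarefree (a' + b' * j))).card : ℝ) := by
      have : J ≤ J0 + ((range J).filter (fun j => ¬ Squarefree (a + b * j))).card +
        ((range J).filter (fun j => ¬ Squarefree (a' + b' * j))).card := by omega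
      exact_mod_cast this
    linarith
  -- contradiction for J = (10 (a+b+a'+b'+J0+1))^2
  set C := a + b + a' + b' + J0 + 1 with hC
  have hk := key ((20 * C) ^ 2)
  have hs1 : Nat.sqrt (a + b * (20 * C) ^ 2) ≤ 20 * C * C + C := by
    rw [← Nat.lt_succ_iff, Nat.sqrt_lt']
    have h1 : a ≤ C := by omega
    have h2 : b ≤ C := by omega
    have h3 : b * (20 * C) ^ 2 ≤ C * (20 * C) ^ 2 := Nat.mul_le_mul_right _ h2
    have h4 : 1 ≤ C := by omega
    calc a + b * (20 * C) ^ 2 ≤ C + C * (20 * C) ^ 2 := by omega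
      _ < (20 * C * C + C).succ ^ 2 := by
        have : C * (20 * C) ^ 2 ≤ (20 * C * C) ^ 2 := by
          have : C * (20 * C) ^ 2 ≤ C * C * (20 * C) ^ 2 := by
            apply Nat.mul_le_mul_right
            nlinarith
          calc C * (20 * C) ^ 2 ≤ C * C * (20 * C) ^ 2 := this
            _ = (20 * C * C) ^ 2 := by ring
        rw [Nat.succ_eq_add_one]
        nlinarith
  have hs2 : Nat.sqrt (a' + b' * (20 * C) ^ 2) ≤ 20 * C * C + C := by
    rw [← Nat.lt_succ_iff, Nat.sqrt_lt']
    have h1 : a' ≤ C := by omega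
    have h2 : b' ≤ C := by omega
    have h3 : b' * (20 * C) ^ 2 ≤ C * (20 * C) ^ 2 := Nat.mul_le_mul_right _ h2
    have h4 : 1 ≤ C := by omega
    calc a' + b' * (20 * C) ^ 2 ≤ C + C * (20 * C) ^ 2 := by omega
      _ < (20 * C * C + C).succ ^ 2 := by
        have : C * (20 * C) ^ 2 ≤ (20 * C * C) ^ 2 := by
          have : C * (20 * C) ^ 2 ≤ C * C * (20 * C) ^ 2 := by
            apply Nat.mul_le_mul_right
            nlinarith
          calc C * (20 * C) ^ 2 ≤ C * C * (20 * C) ^ 2 := this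
            _ = (20 * C * C) ^ 2 := by ring
        rw [Nat.succ_eq_add_one]
        nlinarith
  have hs1' : (Nat.sqrt (a + b * (20 * C) ^ 2) : ℝ) ≤ 20 * C * C + C := by exact_mod_cast hs1
  have hs2' : (Nat.sqrt (a' + b' * (20 * C) ^ 2) : ℝ) ≤ 20 * C * C + C := by exact_mod_cast hs2
  have hJ0 : (J0 : ℝ) ≤ C := by
    have : J0 ≤ C := by omega
    exact_mod_cast this
  have hC1 : (1 : ℝ) ≤ C := by
    have : 1 ≤ C := by omega
    exact_mod_cast this
  push_cast at hk
  nlinarith

end Pool.Agent.Helper51.Pell
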