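import Pool.Agent.Helper51.Pell.Squarefree

set_option autoImplicit false

namespace Pool.Agent.Helper51.Pell

/-- `(t,u)` are the coordinates of a unit of the ring of integers of `ℚ(√d)` (`d` squarefree):
`(t + u√d)/2` if `d ≡ 1 mod 4`, and `t + u√d` otherwise. -/
def IsUnitPair (d : ℕ) (t u : ℤ) : Prop :=
  if d % 4 = 1 then (t ^ 2 - d * u ^ 2 = 4 ∨ t ^ 2 - d * u ^ 2 = -4)
  else (t ^ 2 - d * u ^ 2 = 1 ∨ t ^ 2 - d * u ^ 2 = -1)

/-- the real number with coordinates `(t,u)`. -/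
noncomputable def unitVal (d : ℕ) (t u : ℤ) : ℝ :=
  if d % 4 = 1 then (t + u * √(d : ℝ)) / 2 else t + u * √(d : ℝ)

/-- `(t,u)` are the coordinates of the fundamental unit, the least unit greater than one. -/
def IsFundamental (d : ℕ) (t u : ℤ) : Prop :=
  IsUnitPair d t u ∧ 1 < unitVal d t u ∧
    ∀ t' u' : ℤ, IsUnitPair d t' u' → 1 < unitVal d t' u' → unitVal d t u ≤ unitVal d t' u'

/-- positivity of the coordinates of a unit greater than one -/
theorem pos_of_gt (d : ℕ) (hd : 0 < d) (e : ℤ) (he : 0 < e) (t u : ℤ)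
    (h : t ^ 2 - d * u ^ 2 = e ^ 2 ∨ t ^ 2 - d * u ^ 2 = -e ^ 2)
    (h1 : (e : ℝ) < t + u * √(d : ℝ)) : 0 < t ∧ 0 < u := by
  have hs : (0 : ℝ) < √(d : ℝ) := Real.sqrt_pos.2 (by exact_mod_cast hd)
  have hsq : √(d : ℝ) ^ 2 = d := Real.sq_sqrt (by positivity)
  have he' : (0 : ℝ) < e := by exact_mod_cast he
  set A : ℝ := t + u * √(d : ℝ) with hA
  set B : ℝ := t - u * √(d : ℝ) with hB
  have hAB : A * B = t ^ 2 - d * u ^ 2 := by
    rw [hA, hB]; ring_nf; rw [hsq]
  have habs : |A * B| = (e : ℝ) ^ 2 := by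
    rw [hAB]
    rcases h with h | h
    · have : ((t : ℝ) ^ 2 - d * u ^ 2) = (e : ℝ) ^ 2 := by exact_mod_cast h
      rw [this]; exact abs_of_nonneg (by positivity)
    · have : ((t : ℝ) ^ 2 - d * u ^ 2) = -(e : ℝ) ^ 2 := by exact_mod_cast h
      rw [this, abs_neg]; exact abs_of_nonneg (by positivity)
  have hApos : 0 < A := he'.trans h1
  have hBabs : |B| < e := by
    rw [abs_mul, abs_of_pos hApos] at habs
    by_contra hcon
    push Not at hcon
    nlinarith
  rw [abs_lt] at hBabs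
  constructor
  · have : (0 : ℝ) < t := by
      have : A + B = 2 * t := by rw [hA, hB]; ring
      linarith
    exact_mod_cast this
  · have : (0 : ℝ) < u * √(d : ℝ) := by
      have : A - B = 2 * (u * √(d : ℝ)) := by rw [hA, hB]; ring
      linarith
    have := (pos_iff_pos_of_mul_pos this).2 hs
    exact_mod_cast this

/-- the arithmetic core: minimality of the unit -/
theorem minimal (d e μ N : ℤ) (he : e = 1 ∨ e = 2) (hμ : 0 < μ) (hN : 8 * μ ^ 2 < N)
    (hd : μ ^ 2 * d = N ^ 2 - 1) (t' u' : ℤ) (ht' : 0 < t') (hu' : 0 < u')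
    (h : t' ^ 2 - d * u' ^ 2 = e ^ 2 ∨ t' ^ 2 - d * u' ^ 2 = -e ^ 2) :
    e * μ ≤ u' ∧ e * N ≤ t' := by
  have he2 : e ^ 2 ≤ 4 := by rcases he with rfl | rfl <;> norm_num
  have he1 : 1 ≤ e := by rcases he with rfl | rfl <;> norm_num
  have hN0 : 0 < N := by nlinarith [sq_nonneg μ]
  have hu : e * μ ≤ u' := by
    by_contra hcon
    push Not at hcon
    have hu2 : u' ^ 2 < e ^ 2 * μ ^ 2 := by nlinarith
    have key : (μ * t' - N * u') * (μ * t' + N * u') = μ ^ 2 * (t' ^ 2 - d * u' ^ 2) - u' ^ 2 := by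
      have : N ^ 2 = μ ^ 2 * d + 1 := by linarith
      linear_combination (-u' ^ 2) * this
    have hbig : N < μ * t' + N * u' := by nlinarith
    have hne : μ * t' - N * u' ≠ 0 := by
      intro h0
      rw [h0, zero_mul] at key
      rcases h with h | h <;> rw [h] at key <;> nlinarith
    have habs : 1 ≤ |μ * t' - N * u'| := Int.one_le_abs hne
    have h2 : |(μ * t' - N * u') * (μ * t' + N * u')| = |μ * t' - N * u'| * (μ * t' + N * u') := by
      rw [abs_mul, abs_of_pos (by linarith : 0 < μ * t' + N * u')]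
    have h3 : |(μ * t' - N * u') * (μ * t' + N * u')| ≤ 8 * μ ^ 2 := by
      rw [key, abs_le]
      rcases h with h | h <;> rw [h] <;> constructor <;> nlinarith
    rw [h2] at h3
    nlinarith
  refine ⟨hu, ?_⟩
  -- t'
  by_contra hcon
  push Not at hcon
  have h1 : t' ^ 2 ≥ d * u' ^ 2 - e ^ 2 := by rcases h with h | h <;> nlinarith
  have hd0 : 0 < d := by
    by_contra hd0
    push Not at hd0
    nlinarith [sq_nonneg μ]
  have hu2 : e ^ 2 * μ ^ 2 ≤ u' ^ 2 := by
    have : (e * μ) ^ 2 ≤ u' ^ 2 := by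
      apply pow_le_pow_left₀ (by positivity) hu
    nlinarith
  have h4 : d * (e ^ 2 * μ ^ 2) ≤ d * u' ^ 2 := mul_le_mul_of_nonneg_left hu2 hd0.le
  have h5 : e ^ 2 * (N ^ 2 - 1) - e ^ 2 ≤ t' ^ 2 := by
    have : d * (e ^ 2 * μ ^ 2) = e ^ 2 * (N ^ 2 - 1) := by rw [← hd]; ring
    linarith
  have h6 : t' ≤ e * N - 1 := by omega
  have h7 : t' ^ 2 ≤ (e * N - 1) ^ 2 := by
    apply pow_le_pow_left₀ ht'.le h6
  have hN8 : 8 < N := by nlinarith
  nlinarith

end Pool.Agent.Helper51.Pell
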